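import Mathlib
import Pool.Agent.W921.VP.DefsC

set_option autoImplicit false

/-!
Project VP, part QU: the type of a tuple prolonged by a twin.
-/

namespace Pool.Agent.W125.VP.QU

open FirstOrder Set
open FirstOrder.Language (Theory BoundedFormula)
open Pool.Agent.W921.VP

theorem term_var {L : FirstOrder.Language.{0, 0}} (hL : L.IsRelational) {n : ℕ}
    (t : L.Term (Empty ⊕ Fin n)) : ∃ i : Fin n, t = Language.Term.var (Sum.inr i) := by
  cases t with
  | var x =>
    rcases x with x | i
    · exact x.elim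
    · exact ⟨i, rfl⟩
  | func f ts => exact ((hL _).false f).elim

/-- Formulas are preserved by isomorphisms for their relation symbols. -/
theorem inv {L : FirstOrder.Language.{0, 0}} (hL : L.IsRelational) {n : ℕ}
    (φ : L.BoundedFormula Empty n) : ∃ F : Finset (Sym L), ∀ (M N : Type) (S : L.Structure M)
      (S' : L.Structure N) (e : M ≃ N), FIso S S' F e → ∀ xs : Fin n → M,
      (@BoundedFormula.Realize L M S Empty n φ Empty.elim xs ↔
        @BoundedFormula.Realize L N S' Empty n φ Empty.elim (fun i => e (xs i))) := by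
  classical
  induction φ with
  | falsum => exact ⟨∅, fun M N S S' e _ xs => Iff.rfl⟩
  | equal t₁ t₂ =>
    refine ⟨∅, fun M N S S' e _ xs => ?_⟩
    obtain ⟨i, rfl⟩ := term_var hL t₁
    obtain ⟨j, rfl⟩ := term_var hL t₂
    exact e.injective.eq_iff.symm
  | @rel n l R ts =>
    refine ⟨{⟨l, R⟩}, fun M N S S' e he xs => ?_⟩
    choose v hv using fun i => term_var hL (ts i)
    obtain rfl : ts = fun i => Language.Term.var (Sum.inr (v i)) := funext hv
    exact he ⟨l, R⟩ (Finset.mem_singleton_self _) (fun i => xs (v i))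
  | imp φ ψ ih₁ ih₂ =>
    obtain ⟨F₁, h₁⟩ := ih₁
    obtain ⟨F₂, h₂⟩ := ih₂
    refine ⟨F₁ ∪ F₂, fun M N S S' e he xs => ?_⟩
    exact imp_congr (h₁ M N S S' e (fun R hR => he R (Finset.mem_union_left _ hR)) xs)
      (h₂ M N S S' e (fun R hR => he R (Finset.mem_union_right _ hR)) xs)
  | @all n φ ih =>
    obtain ⟨F, h⟩ := ih
    refine ⟨F, fun M N S S' e he xs => ?_⟩
    have key : ∀ x : M, (fun i => e ((Fin.snoc xs x : Fin (n + 1) → M) i)) =
        (Fin.snoc (fun i => e (xs i)) (e x) : Fin (n + 1) → N) := by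
      intro x
      funext i
      refine Fin.lastCases ?_ (fun i => ?_) i
      · simp only [Fin.snoc_last]
      · simp only [Fin.snoc_castSucc]
    constructor
    · intro hr y
      obtain ⟨x, rfl⟩ := e.surjective y
      have h1 := (h M N S S' e he (Fin.snoc xs x)).mp (hr x)
      rw [key x] at h1
      exact h1
    · intro hr x
      have h1 := hr (e x)
      rw [← key x] at h1
      exact (h M N S S' e he (Fin.snoc xs x)).mpr h1

theorem sw_eq_swap {M : Type} [DecidableEq M] (x y z : M) : sw x y z = Equiv.swap x y z := by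
  unfold sw
  rw [Equiv.swap_apply_def]
  by_cases h1 : z = x
  · simp [h1]
  · by_cases h2 : z = y
    · simp [h2]
    · simp [h1, h2]

/-- Transport of twins. -/
theorem tw_map {L : FirstOrder.Language.{0, 0}} {M N : Type} {S : L.Structure M}
    {S' : L.Structure N} {F : Finset (Sym L)} {e : M ≃ N} (he : FIso S S' F e) {R : Sym L}
    (hR : R ∈ F) {x y : M} (h : Tw S R.2 x y) : Tw S' R.2 (e x) (e y) := by
  classical
  intro s
  have h1 := h (fun i => e.symm (s i))
  rw [he R hR, he R hR] at h1
  have h2 : (fun i => e (sw x y (e.symm (s i)))) = fun i => sw (e x) (e y) (s i) := by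
    funext i
    rw [sw_eq_swap, sw_eq_swap]
    have := e.injective.map_swap x y (e.symm (s i))
    rw [this, Equiv.apply_symm_apply]
  have h3 : (fun i => e (e.symm (s i))) = s := by
    funext i
    exact e.apply_symm_apply _
  rw [h2, h3] at h1
  exact h1

theorem task (hs : S_SW) (hf : S_FOT) : S_QU := by
  classical
  intro L hL S S' n a a' hS hS' hT i b b' hb hb' hba hba' φ
  obtain ⟨F, hF⟩ := inv hL φ
  obtain ⟨e, hea, heF⟩ := hf L hL S S' n a a' hS hS' hT F
  set τ : ℕ ≃ ℕ := Equiv.swap (e b) b' with hτ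
  have h1 : ∀ R ∈ F, Tw S' R.2 (e b) b' := by
    intro R hR
    have h2 : Tw S' R.2 (e b) (a' i) := by
      rw [← hea i]
      exact tw_map heF hR (hb R)
    have h3 := (hs L ℕ S' R.1 R.2).1
    exact h3.trans h2 (h3.symm (hb' R))
  have hτF : FIso S S' F (e.trans τ) := by
    intro R hR s
    rw [heF R hR s]
    have h2 := h1 R hR (fun i => e (s i))
    simp only [sw_eq_swap] at h2
    exact h2.symm
  rw [hF ℕ ℕ S S' (e.trans τ) hτF]
  have h2 : (fun j => (e.trans τ) ((Fin.snoc a b : Fin (n + 1) → ℕ) j)) =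
      (Fin.snoc a' b' : Fin (n + 1) → ℕ) := by
    funext j
    refine Fin.lastCases ?_ (fun j => ?_) j
    · simp only [Fin.snoc_last, Equiv.trans_apply]
      exact Equiv.swap_apply_left _ _
    · simp only [Fin.snoc_castSucc, Equiv.trans_apply, hea]
      refine Equiv.swap_apply_of_ne_of_ne ?_ (hba' j).symm
      intro h3
      rw [← hea j] at h3
      exact hba j (e.injective h3).symm
  rw [h2]

end Pool.Agent.W125.VP.QU
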